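import Pool.Agent.E8helper20.CTK3.Val
import Pool.Agent.Y696.CTK.Asm

/-!
# Project CTK3: the `3`-part of the formula for `y² + 3 D y = x³` over `ℚ(ω)`

Adapted from the file `R419/KF/Law.lean`.
-/

set_option autoImplicit false
set_option linter.unusedVariables false
set_option linter.unusedSectionVars false

open scoped Classical

namespace Pool.Agent.E8helper20.CTK3

open NumberField IsDedekindDomain WeierstrassCurve WithZero
open Pool.Agent.Y692.QS (Ei w toC)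
open Pool.Agent.Y715.T.RecG (Pq)
open Pool.Agent.Y703.CT
open Pool.Agent.Y696 (NonsingRed Cur exists_cur)
open Pool.Agent.Y715.T.Gi Pool.Agent.Y715.T.Nr Pool.Agent.Y715.T.Df Pool.Agent.Y715.T.Ell
open Pool.Agent.TH841.NF.D (Sha)
open Pool.Agent.Y715.T.Three (lam_ne sq_three)
open Pool.Agent.Y696.CTK
open Pool.Agent.E8helper20.CT3 (S_SUP IsHL3 Ker3)

section
variable {K : Type} [Field K] [NumberField K] (j : Ei ≃+* 𝓞 K)
variable {J : Type} [Fintype J] [Nonempty J] {π : J → Ei} {e : J → ZMod 3}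

theorem three_pD3 (hD : Dt π e) : (3 : Ei) ∣ pD π e - 1 := by
  unfold pD
  refine Finset.prod_induction (fun l => π l ^ (e l).val) (fun z => (3 : Ei) ∣ z - 1) ?_ ?_ ?_
  · intro a b ha hb
    have h1 : a * b - 1 = (a - 1) * b + (b - 1) := by ring
    rw [h1]
    exact dvd_add (ha.mul_right _) hb
  · simp
  · intro l _
    have h1 : π l - 1 ∣ π l ^ (e l).val - 1 := by
      have := sub_dvd_pow_sub_pow (π l) 1 (e l).val
      rwa [one_pow] at this
    exact (hD.pq l).three.trans h1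

/-- the law for one `D` -/
theorem law_of3 (hLK : S_LK3) (hTRI : S_TRIK3) (hTOR : S_TORK3)
    (hTAM : ∃ c : HeightOneSpectrum (𝓞 K) → ℕ, IsTam (ED (j (3 * pD π e) : K)) c ∧
      ∏ᶠ w, c w = 3 ^ (Fintype.card J + 1))
    (hsup : S_SUP) (hdisc : discr K = -3) (hD : Dt π e) :
    Law3 (j (3 * pD π e)) := by
  have hne0 : pD π e ≠ 0 := Pool.Agent.Y153.CTRAM.ne_zero_of hD
  have h30 : (3 : Ei) ≠ 0 := by decide
  have hne : 3 * pD π e ≠ 0 := mul_ne_zero h30 hne0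
  have h3D : (3 : Ei) ∣ pD π e - 1 := three_pD3 hD
  have htri : Tri (j (3 * pD π e)) ↔ Ker3 π e := hTRI K j J π e hD
  obtain ⟨ht1, ht2⟩ := hTOR K j J π e hD
  obtain ⟨F, hF, hval⟩ := val_sq3 hD
  obtain ⟨c, hc, hm⟩ := hTAM
  set N := tors (j (3 * pD π e)) with hN
  have ht2' : padicValNat 3 N = 1 := ht2
  have hN0 : N ≠ 0 := by
    intro h
    rw [h] at ht2'
    simp at ht2'
  obtain ⟨n', hn'⟩ : 3 ∣ N := by
    have := pow_padicValNat_dvd (p := 3) (n := N)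
    rwa [ht2', pow_one] at this
  have hp3 : Fact (Nat.Prime 3) := ⟨Nat.prime_three⟩
  have hn3 : ¬ 3 ∣ n' := by
    rintro ⟨t, rfl⟩
    have h2 : 3 ^ 2 ∣ N := ⟨t, by rw [hn']; ring⟩
    have := (padicValNat_dvd_iff_le hN0).1 h2
    omega
  refine ⟨ht1, ht2, fun s => F s * (starRingEnd ℂ) (F ((starRingEnd ℂ) s)), c, diff_conj hF.1,
    fun s hs => hLK Pool.Agent.Y350.CT.rec hsup K j J π e hD F hF s hs, ?_, hc, fun σ => ?_⟩
  · intro hT
    obtain ⟨V, hV⟩ := Pool.Agent.Y715.T.Fin.exists_over_three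
    obtain ⟨Ω, hΩ, hC⟩ := exists_cur
    obtain ⟨g, -, hg2, -, hg⟩ := hval V.ValueGroup V.valuation hV _ Ω hC
    rw [hg2 (htri.1 hT), one_pow, mul_one] at hg
    have hl : V.valuation Pool.Agent.Y715.T.Three.lam ≠ 0 := lam_ne
    intro h0
    have h0' : F 1 * (starRingEnd ℂ) (F 1) = 0 := by
      have : F 1 * (starRingEnd ℂ) (F ((starRingEnd ℂ) 1)) = 0 := h0
      rwa [map_one] at this
    rw [h0', zero_div, map_zero, zero_pow three_ne_zero, zero_mul] at hg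
    exact pow_ne_zero _ hl hg.symm
  set τ : Ei →+* ℂ := σ.comp ((algebraMap (𝓞 K) K).comp (j : Ei →+* 𝓞 K)) with hτ
  have hτa : ∀ z, τ z = σ (j z : K) := fun z => rfl
  set d : ℂ := σ (j (3 * pD π e) : K) with hd
  have hd3 : d = 3 * τ (pD π e) := by
    rw [hd, ← hτa, map_mul, map_ofNat]
  have hd0 : d ≠ 0 := by
    rw [hd, ← hτa]
    intro h
    apply hne
    apply j.injective
    rw [map_zero]
    have h1 : ((j (3 * pD π e) : 𝓞 K) : K) = 0 := (map_eq_zero σ).1 h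
    exact_mod_cast h1
  obtain ⟨u, hu⟩ := IsAlgClosed.exists_pow_nat_eq d (n := 3) (by norm_num)
  obtain ⟨hex, hall⟩ := PER d u hd0 hu
  refine ⟨hex, fun Λ k2 k3 => ?_⟩
  obtain ⟨L, Ω, hC, hA⟩ := hall Λ k2 k3
  have hΩ : Ω ≠ 0 := hC.lat.ne
  have hu0 : u ≠ 0 := by
    rintro rfl
    apply hd0
    rw [← hu]
    ring
  have hΩc : (starRingEnd ℂ) Ω ≠ 0 := (map_ne_zero _).2 hΩ
  have huc : (starRingEnd ℂ) u ≠ 0 := (map_ne_zero _).2 hu0
  have hNC : (N : ℂ) ≠ 0 := by exact_mod_cast hN0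
  have hs3 : ((Real.sqrt 3 : ℝ) : ℂ) ≠ 0 := by
    rw [Ne, Complex.ofReal_eq_zero]
    positivity
  have hA' : (((2 * |((starRingEnd ℂ) Λ.ω₁ * Λ.ω₂).im| : ℝ)) : ℂ) =
      ((Real.sqrt 3 : ℝ) : ℂ) * (Ω * (starRingEnd ℂ) Ω) / (u * (starRingEnd ℂ) u) := by
    rw [hA, Complex.mul_conj, Complex.mul_conj, Complex.normSq_eq_norm_sq,
      Complex.normSq_eq_norm_sq]
    push_cast
    ring
  have hdis : ((Real.sqrt |(discr K : ℝ)| : ℝ) : ℂ) = ((Real.sqrt 3 : ℝ) : ℂ) := by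
    rw [hdisc]
    norm_num
  refine ⟨F 1 * (starRingEnd ℂ) (F 1) / (Ω * (starRingEnd ℂ) Ω) * (u * (starRingEnd ℂ) u) *
    (N : ℂ) ^ 2 / 3 ^ (Fintype.card J + 1), ?_, ?_⟩
  · rw [hA', hdis, hm, ← hN]
    push_cast
    rw [map_one]
    field_simp
  · intro Γ _ v hv
    obtain ⟨g, hg1, hg2, hg3, hg⟩ := hval Γ v hv L Ω hC
    have h3l : v 3 = v Pool.Agent.Y715.T.Three.lam ^ 2 := by rw [pow_two, sq_three]
    have hvN : v (N : ℂ) = v Pool.Agent.Y715.T.Three.lam ^ 2 := by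
      rw [hn']
      push_cast
      rw [map_mul, v_natp hv hn3, mul_one, h3l]
    have hvu : v u ^ 3 = v Pool.Agent.Y715.T.Three.lam ^ 2 := by
      rw [← map_pow, hu, hd3, map_mul, v_emb_unit v hv τ h3D, mul_one, h3l]
    have hvu' : v ((starRingEnd ℂ) u) ^ 3 = v Pool.Agent.Y715.T.Three.lam ^ 2 := by
      have h1 : (starRingEnd ℂ) d = 3 * ((starRingEnd ℂ).comp τ) (pD π e) := by
        rw [hd3, map_mul, map_ofNat]
        rfl
      rw [← map_pow, ← map_pow (starRingEnd ℂ), hu, h1, map_mul,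
        v_emb_unit v hv ((starRingEnd ℂ).comp τ) h3D, mul_one, h3l]
    have hl : v Pool.Agent.Y715.T.Three.lam ≠ 0 := lam_ne
    have key : v (F 1 * (starRingEnd ℂ) (F 1) / (Ω * (starRingEnd ℂ) Ω) *
        (u * (starRingEnd ℂ) u) * (N : ℂ) ^ 2 / 3 ^ (Fintype.card J + 1)) = g := by
      refine (pow_left_inj₀ zero_le zero_le three_ne_zero).1 ?_
      rw [map_div₀, map_mul, map_mul, map_mul v u, map_pow, map_pow, hvN, h3l]
      simp only [div_pow, mul_pow, hvu, hvu']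
      rw [div_eq_iff (pow_ne_zero _ (pow_ne_zero _ (pow_ne_zero _ hl)))]
      have hg' : v (F 1 * (starRingEnd ℂ) (F 1) / (Ω * (starRingEnd ℂ) Ω)) ^ 3 =
          v Pool.Agent.Y715.T.Three.lam ^ (6 * Fintype.card J) * g ^ 3 /
            v Pool.Agent.Y715.T.Three.lam ^ 10 := by
        rw [eq_div_iff (pow_ne_zero _ hl)]
        exact hg
      rw [hg']
      set l := v Pool.Agent.Y715.T.Three.lam with hldef
      have e1 : ((l ^ 2) ^ (Fintype.card J + 1)) ^ 3 = l ^ (6 * Fintype.card J) * l ^ 6 := by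
        rw [← pow_mul, ← pow_mul, ← pow_add]
        congr 1
        ring
      have e2 : ((l ^ 2) ^ 2) ^ 3 = l ^ 12 := by rw [← pow_mul, ← pow_mul]
      rw [e1, e2]
      have e3 : l ^ 2 * l ^ 2 * l ^ 12 = l ^ 10 * l ^ 6 := by rw [← pow_add, ← pow_add, ← pow_add]
      have h10 : l ^ 10 ≠ 0 := pow_ne_zero _ hl
      calc l ^ (6 * Fintype.card J) * g ^ 3 / l ^ 10 * (l ^ 2 * l ^ 2) * l ^ 12
          = l ^ (6 * Fintype.card J) * g ^ 3 / l ^ 10 * (l ^ 2 * l ^ 2 * l ^ 12) := by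
            rw [mul_assoc]
        _ = l ^ (6 * Fintype.card J) * g ^ 3 / l ^ 10 * l ^ 10 * l ^ 6 := by
            rw [e3, mul_assoc]
        _ = l ^ (6 * Fintype.card J) * g ^ 3 * l ^ 6 := by rw [div_mul_cancel₀ _ h10]
        _ = g ^ 3 * (l ^ (6 * Fintype.card J) * l ^ 6) := by ac_rfl
    rw [key]
    refine ⟨hg1, ?_⟩
    rw [htri]
    constructor
    · intro h
      by_contra hk
      exact absurd h (hg3 hk).ne
    · exact hg2

end

end Pool.Agent.E8helper20.CTK3
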