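import Pool.Agent.R419.KF.Defs
import Pool.Agent.Y699.E.Hal2

/-!
# Project CTK3 (helper20): the exact proportion for the twists `y² + 3 D y = x³` over `ℚ(ω)`

`D` runs over all cube-free primary elements `D ≠ 1` of `ℤ[ω]`, without condition modulo `9`. `S` is
the set of the prime divisors of `D` and `M ⊆ S` the set of those with exponent `2`.  Compare project
KF of helper419 (`Pool/Agent/R419/KF`): there the Laplacian is without the vertex `3`, and the class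
has a condition modulo `9`. All parts below are adaptations of files of that project.
-/

set_option autoImplicit false
set_option linter.unusedVariables false

open scoped Classical

namespace Pool.Agent.E8helper20.CTK3

open Finset
open Pool.Agent.Y692.QS (Ei w nr toC)
open Pool.Agent.Y715.T.Rec (cs)
open Pool.Agent.Y715.T.RecG (Pq)
open Pool.Agent.Y699.E (ez nrm QB SB PS mf lg xab)
open Pool.Agent.Y703.CX (jj XX eL zz kk)
open Pool.Agent.Y703.XK (sm la bl prs HB S_EQ S_LA S_BIL S_C9 S_LOW c9)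
open Pool.Agent.R419.KF (wt SG)

/-- the second digit: `α = 1 + 3 x + 3 y ω` modulo `9` gives `y` (the same as
`Pool.Agent.E8helper20.CT3.yy`) -/
def yd (α : Ei) : ZMod 3 := ((α.im / 3 : ℤ) : ZMod 3)

/-- the supplementary law for `3` (proved: `Pool.Agent.E8helper2.CT3.t_SUP`) -/
def S_SUPD : Prop := ∀ π : Ei, Pq π → cs π 3 = yd π

/-- the kernel of the weighted Laplacian with the additional vertex `3`, where `v` is zero -/
def Sol3 (M S : Finset Ei) (v : Ei → ZMod 3) : Prop :=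
  ∀ π ∈ S, ∑ ρ ∈ S, wt M ρ * cs π ρ * (v ρ - v π) = cs π 3 * v π

/-- the good sets: the only solution is zero -/
def Gd3 (M S : Finset Ei) : Prop := ∀ v, Sol3 M S v → ∀ π ∈ S, v π = 0

/-- the nonempty sets of primary primes containing `M`, with norm at most `X` -/
noncomputable def S3 (M : Finset Ei) (X : ℕ) : Finset (Finset Ei) :=
  (SG X).filter fun S => M ⊆ S ∧ S.Nonempty

/-- the labels of the large primes with respect to the small ones and `3` are not degenerate -/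
def Nd3 (S₀ S₁ : Finset Ei) : Prop :=
  ∀ (t : ZMod 3) (v : Ei → ZMod 3), (t ≠ 0 ∨ ∃ u ∈ S₀, v u ≠ 0) →
    ∃ π ∈ S₁, t * cs π 3 + ∑ u ∈ S₀, v u * cs u π ≠ 0

/-- the regular sets -/
noncomputable def RR3 (M : Finset Ei) (X z H k V : ℕ) : Finset (Finset Ei) :=
  (S3 M X).filter fun S => Set.InjOn (bl H) (la z S : Set Ei) ∧ S.card ≤ k ∧
    (∏ π ∈ sm z S, nrm π) * ∏ π ∈ la z S, XX H (bl H π) ≤ X ∧
    (sm z S).card + V < (la z S).card

/-- D1 BOX3: the count in a box (compare `Pool.Agent.R419.KF.t_BOXW` in `R419/KF/Box.lean`; `S_LA` is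
used with `U = Option S₀`, where `none` is the vertex `3`, `A u none = wt M u * cs u 3`,
`B none k = cs (p k) 3`; the equation at `none` follows from the other ones by symmetry). -/
def S_BOX3 : Prop := S_EQ → S_LA → ∀ (ι : Type) [Fintype ι] [LinearOrder ι]
  (C : ι → Finset Ei) (X : ι → ℕ) (κ : ℝ) (M S₀ : Finset Ei), M ⊆ S₀ → 0 ≤ κ →
  (∀ i, (C i).card ≤ X i) → HB C X κ → (∀ u ∈ S₀, Pq u) → (∀ i, ∀ π ∈ C i, Pq π ∧ π ∉ S₀) →
  (∀ i l, i ≠ l → Disjoint (C i) (C l)) → S₀.card + 1 < Fintype.card ι →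
  |(((Fintype.piFinset C).filter fun p => Nd3 S₀ (univ.image p) ∧
      Gd3 M (S₀ ∪ univ.image p)).card : ℝ) -
    c9 * (((Fintype.piFinset C).filter fun p => Nd3 S₀ (univ.image p)).card : ℝ)| ≤
  3 * (3 ^ (S₀.card + 1) / 3 ^ Fintype.card ι) *
    (((Fintype.piFinset C).filter fun p => Nd3 S₀ (univ.image p)).card : ℝ) +
  3 ^ ((S₀.card + 1) * Fintype.card ι + (prs ι).card) * (κ * ∏ j, (X j : ℝ))

/-- D2 HAL3: mean values of the characters with a nontrivial twist modulo `9` (compare `chs_le`,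
`chs_log`, `hallG` in `Y699/E/Hal2.lean`; for `t ≠ 0` the character is nontrivial modulo `9 A B` also
for `A = B`: `yd` is additive on primary elements and nontrivial modulo `9`). -/
def S_HAL3 : Prop := ∃ C : ℝ, 0 ≤ C ∧ ∀ (t : ZMod 3) (A B : Ei), t ≠ 0 → PS A → PS B → ∀ T : ℕ,
  ∑ n ∈ SB T, mf (fun π => (1 + 2 * (ez (t * yd π) * xab A B π).re) / 3) n ≤
    C * (lg (nrm A * nrm B)) ^ (1 / 3 : ℝ) * (T * (lg T) ^ (-(1 / 3) : ℝ))

/-- the conclusion of D3 -/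
def BadC : Prop := ∀ ε : ℝ, 0 < ε → ∃ X₀ : ℕ, ∀ X : ℕ, X₀ ≤ X →
  (((SG X).filter fun S => S.card ≤ kk X ∧ ¬ Nd3 (sm (zz X) S) (la (zz X) S)).card : ℝ) ≤ ε * X

/-- D3 BAD3: few sets have degenerate labels (compare `R419/KF/FewBad.lean`, `t_BAD`, and `notNd` in
`Y433/XK/Few.lean`; for `t = 0` use `hallG`, for `t ≠ 0` use HAL3). -/
def S_BAD3 : Prop := S_SUPD → S_HAL3 → BadC

/-- the conclusion of D4 -/
def KeyC : Prop := ∃ C : ℝ, 1 ≤ C ∧
  ∀ (M : Finset Ei) (X z H k V N : ℕ) (κ : ℝ), (∀ q ∈ M, nrm q ≤ z) → 1 ≤ V → 1 ≤ X → 1 ≤ H →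
  1 ≤ z → 0 ≤ κ → C ≤ κ ^ 24 * z → (H : ℝ) * Real.log X < N →
  |(((RR3 M X z H k V).filter fun S => Nd3 (sm z S) (la z S) ∧ Gd3 M S).card : ℝ) -
      c9 * (((RR3 M X z H k V).filter fun S => Nd3 (sm z S) (la z S)).card : ℝ)| ≤
    3 * (1 / 3 : ℝ) ^ V * ((RR3 M X z H k V).card : ℝ) +
    (9 * N + 9 : ℝ) ^ k * (3 ^ (9 * k ^ 2 + 9) * κ) * (X * (1 + Real.log X))

/-- D4 KEY3: the sum over the boxes (compare `R419/KF/Key.lean`, `t_KEYW`; the condition modulo `9` of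
`CdW` disappears, the rest is the same; `1 ≤ V` gives `S₀.card + 1 < J.card`). -/
def S_KEY3 : Prop := S_BIL → S_EQ → S_LA → S_BOX3 → KeyC

/-- the conclusion of D5 -/
def AsyC : Prop := ∀ (M : Finset Ei) (ε : ℝ), 0 < ε → ∃ X₀ : ℕ, ∀ X : ℕ, X₀ ≤ X →
  |(((S3 M X).filter (Gd3 M)).card : ℝ) - c9 * ((S3 M X).card : ℝ)| ≤ ε * X

/-- D5 ASY3: the asymptotics for one `M` (compare `R419/KF/Asy.lean`, `asyM`). -/
def S_ASY3 : Prop := S_C9 → KeyC → BadC → AsyC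

/-- the class of the elements -/
def ClsC3 (D : Ei) : Prop :=
  (3 : Ei) ∣ D - 1 ∧ (D ≠ 0 ∧ ∀ d : Ei, d ^ 3 ∣ D → IsUnit d) ∧ D ≠ 1

/-- the element of a pair -/
noncomputable def el3 (M S : Finset Ei) : Ei := (∏ π ∈ S, π) * ∏ π ∈ M, π

/-- the conclusion of D6 -/
def DenC : Prop :=
  (∃ c : ℝ, 0 < c ∧ ∃ X₀ : ℕ, ∀ X : ℕ, X₀ ≤ X →
    c * X ≤ ({D : Ei | nr D ≤ X ∧ ClsC3 D}.ncard : ℝ)) ∧
  ∀ T : Ei → Prop, (∀ M S : Finset Ei, (∀ π ∈ S, Pq π) → M ⊆ S → S.Nonempty →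
      (T (el3 M S) ↔ Gd3 M S)) →
    Filter.Tendsto (fun X : ℕ => ({D : Ei | nr D ≤ X ∧ ClsC3 D ∧ T D}.ncard : ℝ) /
      ({D : Ei | nr D ≤ X ∧ ClsC3 D}.ncard : ℝ)) Filter.atTop (nhds c9)

/-- D6 DEN3: the sum over `M` and the translation to elements (compare `R419/KF/Sum.lean`,
`R419/KF/NS.lean`: `t_TOT`, `ex_pair`, `card_eq`, `t_PR`). -/
def S_DEN3K : Prop := S_C9 → S_LOW → AsyC → DenC

/-- D7 PAIR: every element of the class comes from a pair (compare `ex_pair` in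
`R419/KF/NS.lean`). -/
def S_PAIR : Prop := ∀ D : Ei, ClsC3 D → ∃ M S : Finset Ei, (∀ q ∈ S, Pq q) ∧ M ⊆ S ∧ S.Nonempty ∧
  D = el3 M S

end Pool.Agent.E8helper20.CTK3
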