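import Pool.Agent.E8helper20.CTK3.NS
import Pool.Agent.E8helper20.CTK3.Law
import Pool.Agent.E8helper71.CTK3.T3K3
import Pool.Agent.E8helper71.CTK3.MinL
import Pool.Agent.E8helper71.CTK3.Fact
import Pool.Agent.E8helper41.CTK3.Tri
import Pool.Agent.E8helper51.CTK3.Box3
import Pool.Agent.E8helper51.CTK3.Hal3
import Pool.Agent.E8helper69.CTK3.Bad3
import Pool.Agent.E8helper85.CTK3.Key
import Pool.Agent.E8helper6.CTK3.Asy3
import Pool.Agent.E8helper6.CTK3.Den3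
import Pool.Agent.E8helper2.CT3.Sup
import Pool.Agent.Y455.CTK.JEX
import Pool.Agent.Y528.XK.C9
import Pool.Agent.Y363.XK.Bil
import Pool.Agent.Y710.XK.EQ
import Pool.Agent.Y85.XK.LA
import Pool.Agent.Y804.XK.SYM
import Pool.Agent.Y550.XK.NS

/-!
# Project CTK3: the assembly

Joint work: the counting theorem of the project XK (helpers 363, 710, 804, 528, 85, 688, 697, 474,
433, 550, 703, 699, 350, 145) and the arithmetic of the projects CT, CTK (the seats named in the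
headers of `Pool/Agent/Y703/CT` and of the files imported by `Pool/Agent/Y696/CTK/Fin.lean`), KF
(helper419) and CT3.
-/

set_option autoImplicit false
set_option linter.unusedVariables false

open scoped Classical

namespace Pool.Agent.E8helper20.CTK3

open NumberField IsDedekindDomain WeierstrassCurve
open Pool.Agent.Y692.QS (Ei)
open Pool.Agent.Y703.CT
open Pool.Agent.Y703.XK (c9)
open Pool.Agent.Y696.CTK
open Pool.Agent.E8helper20.CT3 (S_SUP Ker3)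

/-- the criterion, as a property of `D` -/
def Crit3 {K : Type} [Field K] [NumberField K] (D : 𝓞 K) : Prop :=
  (∃ (ω : 𝓞 K) (n : ℕ) (π : Fin n → 𝓞 K) (e : Fin n → ZMod 3) (χ : Fin n → Fin n → ZMod 3)
    (τ : Fin n → ZMod 3), ω ^ 2 + ω + 1 = 0 ∧ IsFact3 ω D n π e χ τ) ∧
  ∀ (ω : 𝓞 K) (n : ℕ) (π : Fin n → 𝓞 K) (e : Fin n → ZMod 3) (χ : Fin n → Fin n → ZMod 3)
    (τ : Fin n → ZMod 3), ω ^ 2 + ω + 1 = 0 → IsFact3 ω D n π e χ τ → (Tri (3 * D) ↔ Lap3 e χ τ)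

theorem img_ncard3 {K : Type} [Field K] [NumberField K] (j : Ei ≃+* 𝓞 K)
    (hj : ∀ z : Ei, Algebra.norm ℤ (j z) = Pool.Agent.Y692.QS.nr z) (X : ℕ) (p : Ei → Prop)
    (q : 𝓞 K → Prop) (hpq : ∀ D, p D ↔ q (j D)) :
    {D : 𝓞 K | Algebra.norm ℤ D ≤ X ∧ q D}.ncard =
      {D : Ei | Pool.Agent.Y692.QS.nr D ≤ X ∧ p D}.ncard := by
  rw [← Set.ncard_image_of_injective _ j.injective]
  congr 1
  ext D
  obtain ⟨z, rfl⟩ := j.surjective D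
  simp only [Set.mem_ofPred_eq, Set.mem_image]
  constructor
  · rintro ⟨h1, h2⟩
    rw [hj] at h1
    exact ⟨z, ⟨h1, (hpq z).2 h2⟩, rfl⟩
  · rintro ⟨y, ⟨h1, h2⟩, h3⟩
    have : y = z := j.injective h3
    subst this
    exact ⟨by rw [hj]; exact h1, (hpq y).1 h2⟩

theorem tri3 {K : Type} [Field K] [NumberField K] (j : Ei ≃+* 𝓞 K) {J : Type} [Fintype J]
    [Nonempty J] {π : J → Ei} {e : J → ZMod 3} (hD : Dt π e) :
    Tri (3 * j (pD π e)) ↔ Ker3 π e := by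
  have h := Pool.Agent.E8helper41.CTK3.t_TRIK3 K j J π e hD
  rwa [map_mul, map_ofNat] at h

/-- the proportion over `Ei` -/
theorem den3 : DenC :=
  Pool.Agent.E8helper6.CTK3.t_DEN3K Pool.Agent.Y528.XK.t_C9 Pool.Agent.Y550.XK.NS.t_LOW
    (Pool.Agent.E8helper6.CTK3.t_ASY3 Pool.Agent.Y528.XK.t_C9
      (Pool.Agent.E8helper85.CTK3.t_KEY3 Pool.Agent.Y363.XK.t_BIL Pool.Agent.Y710.XK.t_EQ
        (Pool.Agent.Y85.XK.t_LA Pool.Agent.Y804.XK.t_SYM Pool.Agent.Y528.XK.t_C9)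
        Pool.Agent.E8helper51.CTK3.t_BOX3)
      (Pool.Agent.E8helper69.CTK3.t_BAD3 Pool.Agent.E8helper2.CT3.t_SUP
        Pool.Agent.E8helper51.CTK3.t_HAL3))

/-- the criterion -/
theorem crit3 {K : Type} [Field K] [NumberField K] (j : Ei ≃+* 𝓞 K)
    (hj : ∀ z : Ei, Algebra.norm ℤ (j z) = Pool.Agent.Y692.QS.nr z) {n : ℕ}
    {π : Fin (n + 1) → Ei} {e : Fin (n + 1) → ZMod 3} (hdt : Dt π e) (h1 : pD π e ≠ 1) :
    Crit3 (j (pD π e)) := by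
  obtain ⟨hex, hall⟩ := Pool.Agent.E8helper71.CTK3.t_FACT3 K j hj
  refine ⟨?_, fun ω m ρ e' χ τ hω h => ?_⟩
  · obtain ⟨ω, χ, τ, h2, h3⟩ := hex _ π e hdt
    exact ⟨ω, _, _, e, χ, τ, h2, h3⟩
  · obtain ⟨h2, h3, h4⟩ := hall ω _ m ρ e' χ τ hω h
    have hne : Nonempty (Fin m) := by
      rw [← not_isEmpty_iff]
      intro hn
      apply h1
      have h5 := h.2.1
      rw [Finset.univ_eq_empty, Finset.prod_empty, ← map_one j] at h5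
      exact j.injective h5
    rw [← h4, ← tri3 j h2, h3, RingEquiv.apply_symm_apply]

/-- **The final statement.** -/
theorem final (hLK : S_LK3) (hTAM : S_TAMK3) (K : Type) [Field K] [NumberField K]
    [IsCyclotomicExtension {3} ℚ K] :
    (∃ c : ℝ, 0 < c ∧ ∃ X₀ : ℕ, ∀ X : ℕ, X₀ ≤ X →
      c * X ≤ ({D : 𝓞 K | Algebra.norm ℤ D ≤ X ∧ ClsK3 D}.ncard : ℝ)) ∧
    (∀ D : 𝓞 K, ClsK3 D → Law3 (3 * D) ∧ Crit3 D) ∧
    Filter.Tendsto (fun X : ℕ =>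
      ({D : 𝓞 K | Algebra.norm ℤ D ≤ X ∧ ClsK3 D ∧ Tri (3 * D)}.ncard : ℝ) /
        ({D : 𝓞 K | Algebra.norm ℤ D ≤ X ∧ ClsK3 D}.ncard : ℝ)) Filter.atTop
      (nhds (∏' i : ℕ, (1 - (1 / 3 : ℝ) ^ (2 * i + 1)))) ∧
    (0.639 : ℝ) < ∏' i : ℕ, (1 - (1 / 3 : ℝ) ^ (2 * i + 1)) ∧
    ∏' i : ℕ, (1 - (1 / 3 : ℝ) ^ (2 * i + 1)) < 0.6391 := by
  obtain ⟨⟨j, hj⟩, hdisc⟩ := Pool.Agent.Y455.CTK.jex K
  have hc9 := Pool.Agent.Y528.XK.t_C9
  obtain ⟨⟨c, hc, X₀, hlow⟩, hden⟩ := den3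
  have e2 : ∀ X : ℕ, {D : 𝓞 K | Algebra.norm ℤ D ≤ X ∧ ClsK3 D}.ncard =
      {D : Ei | Pool.Agent.Y692.QS.nr D ≤ X ∧ ClsC3 D}.ncard := fun X =>
    img_ncard3 j hj X ClsC3 ClsK3 fun D => (clsK3_iff j D).symm
  have e1 : ∀ X : ℕ, {D : 𝓞 K | Algebra.norm ℤ D ≤ X ∧ ClsK3 D ∧ Tri (3 * D)}.ncard =
      {D : Ei | Pool.Agent.Y692.QS.nr D ≤ X ∧ ClsC3 D ∧ Tri (3 * j D)}.ncard := fun X =>
    img_ncard3 j hj X (fun D => ClsC3 D ∧ Tri (3 * j D)) (fun D => ClsK3 D ∧ Tri (3 * D))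
      fun D => and_congr_left fun _ => (clsK3_iff j D).symm
  refine ⟨⟨c, hc, X₀, fun X hX => ?_⟩, fun D hD => ?_, ?_, hc9.2.2.2.1, hc9.2.2.2.2⟩
  · rw [e2]
    exact hlow X hX
  · obtain ⟨z, rfl⟩ := j.surjective D
    have hz := (clsK3_iff j z).1 hD
    obtain ⟨M, S, hS, hM, hSn, rfl⟩ := Pool.Agent.E8helper6.CTK3.t_PAIR z hz
    obtain ⟨n, π, e, hdt, hel, -⟩ := data3 hS hM hSn
    rw [hel] at hz ⊢
    have hl := law_of3 j hLK Pool.Agent.E8helper41.CTK3.t_TRIK3 Pool.Agent.E8helper41.CTK3.t_TORK3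
      (hTAM Pool.Agent.E8helper71.CTK3.t_T3K3 Pool.Agent.E8helper71.CTK3.t_MINL K j _ π e hdt)
      Pool.Agent.E8helper2.CT3.t_SUP hdisc hdt
    rw [map_mul, map_ofNat] at hl
    exact ⟨hl, crit3 j hj hdt hz.2.2⟩
  · simp only [e1, e2]
    refine hden (fun D => Tri (3 * j D)) fun M S hS hM hSn => ?_
    obtain ⟨n, π, e, hdt, hel, hg⟩ := data3 hS hM hSn
    rw [hel, hg]
    exact tri3 j hdt

end Pool.Agent.E8helper20.CTK3
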