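import Pool.Agent.E8helper20.CT3.Stm
import Pool.Agent.Y696.CTK.Stm2

/-!
# Project CTK3 (helper20): `y² + 3 D y = x³` over `ℚ(ω)`, the arithmetic parts

`E_{3 D} : y² + 3 D y = x³` over a field `K` with `j : Ei ≃+* 𝓞 K`, where `D = pD π e` is a product of
powers `π_i ^ e_i`, `e_i = 1, 2`, of primary primes.
-/

set_option autoImplicit false
set_option linter.unusedVariables false

open scoped Classical

namespace Pool.Agent.E8helper20.CTK3

open NumberField IsDedekindDomain WeierstrassCurve WithZero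
open Pool.Agent.Y692.QS (Ei w nr toC)
open Pool.Agent.Y715.T.RecG (Pq)
open Pool.Agent.Y703.CT
open Pool.Agent.Y696 (NonsingRed Cur)
open Pool.Agent.Y696.CTK (ED IsTam Tri tors)
open Pool.Agent.E8helper20.CT3 (S_SUP IsHL3 Ker3)

/-- A1: the `L`-function over `K` (compare `Pool.Agent.R419.KF.LK` in `R419/KF/LK.lean`, and
`Pool.Agent.E8helper2.CT3.t_LQ3` for the symbol of `3`). -/
def S_LK3 : Prop := S_REC → S_SUP → ∀ (K : Type) [Field K] [NumberField K] (j : Ei ≃+* 𝓞 K)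
  (J : Type) [Fintype J] (π : J → Ei) (e : J → ZMod 3), Dt π e →
    ∀ F, IsHL3 π (fun i => -e i) F → ∀ s : ℂ, 3 / 2 < s.re →
      LSeriesSummable ((fun n : ℤ => (n : ℂ)) ∘ (ED (j (3 * pD π e) : K)).LFunction) s ∧
        F s * (starRingEnd ℂ) (F ((starRingEnd ℂ) s)) = (ED (j (3 * pD π e) : K)).LSeries s

/-- A2a: type `IV*` at the prime above `3`: `v(3) = v(D) = 2`; `(0, 0)` and `(0, -D)` are in the two
other classes. -/
def S_T3K3 : Prop := ∀ (L : Type) [Field L] (v : Valuation L ℤᵐ⁰) (D : L), v 3 = exp (-2 : ℤ) →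
  v D = exp (-2 : ℤ) → ∀ H : AddSubgroup (ED D).toAffine.Point,
    (∀ P, P ∈ H ↔ NonsingRed v (ED D) P) → H.index = 3

/-- A2b: minimality at the prime above `3`, where `v(Δ) = 14`. -/
def S_MINL : Prop := ∀ (R : Type) [CommRing R] [IsDomain R] [IsDiscreteValuationRing R] (L : Type)
  [Field L] [Algebra R L] [IsFractionRing R L] (p a b : R),
  IsLocalRing.maximalIdeal R = Ideal.span {p} → IsUnit a → IsUnit b → (3 : R) = a * p ^ 2 →
    WeierstrassCurve.IsMinimal R (ED (algebraMap R L (b * p ^ 2)))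

/-- A3: the Tamagawa numbers of `E_{3 D}` over `K` (compare `R419/KF/Tam.lean`). -/
def S_TAMK3 : Prop := S_T3K3 → S_MINL → ∀ (K : Type) [Field K] [NumberField K] (j : Ei ≃+* 𝓞 K)
  (J : Type) [Fintype J] (π : J → Ei) (e : J → ZMod 3), Dt π e →
    ∃ c : HeightOneSpectrum (𝓞 K) → ℕ, IsTam (ED (j (3 * pD π e) : K)) c ∧
      ∏ᶠ w, c w = 3 ^ (Fintype.card J + 1)

/-- A4: the descent over `K` (compare `tri_iff` in `R419/KF/Rk.lean`, and
`Pool/Agent/E8helper85/CT3/Desc3.lean`). -/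
def S_TRIK3 : Prop := ∀ (K : Type) [Field K] [NumberField K] (j : Ei ≃+* 𝓞 K)
  (J : Type) [Fintype J] [Nonempty J] (π : J → Ei) (e : J → ZMod 3), Dt π e →
    (Tri (j (3 * pD π e)) ↔ Ker3 π e)

/-- A4': the torsion over `K`. -/
def S_TORK3 : Prop := ∀ (K : Type) [Field K] [NumberField K] (j : Ei ≃+* 𝓞 K)
  (J : Type) [Fintype J] (π : J → Ei) (e : J → ZMod 3), Dt π e →
    Finite (AddCommGroup.torsion (ED (j (3 * pD π e) : K)).toAffine.Point) ∧
      padicValNat 3 (tors (j (3 * pD π e))) = 1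

/-! ### The criterion over the ring of integers -/

/-- `D` is the product of the powers `π i ^ e i`, `e i = 1, 2`, of the different primary primes
`π i`; `(π i / π j)_3 = ω ^ χ j i` and `(3 / π j)_3 = ω ^ τ j` -/
def IsFact3 {K : Type} [Field K] [NumberField K] (ω D : 𝓞 K) (n : ℕ) (π : Fin n → 𝓞 K)
    (e : Fin n → ZMod 3) (χ : Fin n → Fin n → ZMod 3) (τ : Fin n → ZMod 3) : Prop :=
  (∀ i, Prime (π i) ∧ (3 : 𝓞 K) ∣ π i - 1 ∧ e i ≠ 0) ∧ D = ∏ i, π i ^ (e i).val ∧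
  (∀ i j, i ≠ j → ¬ π j ∣ π i ∧
    π j ∣ π i ^ (((Algebra.norm ℤ (π j)).natAbs - 1) / 3) - ω ^ (χ j i).val) ∧
  ∀ j, π j ∣ 3 ^ (((Algebra.norm ℤ (π j)).natAbs - 1) / 3) - ω ^ (τ j).val

/-- the bordered Laplacian is nonsingular -/
def Lap3 {n : ℕ} (e : Fin n → ZMod 3) (χ : Fin n → Fin n → ZMod 3) (τ : Fin n → ZMod 3) : Prop :=
  ∀ v : Fin n → ZMod 3, (∀ j, ∑ i, e i * χ j i * (v i - v j) = τ j * v j) → ∀ j, v j = 0

/-- A5: the criterion over `𝓞 K`: existence of a factorization with its symbols, and the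
translation of the kernel (compare `fact_dt`, `ker_iff`, `fact_ex` in `R419/KF/Crit.lean`). -/
def S_FACT3 : Prop := ∀ (K : Type) [Field K] [NumberField K] (j : Ei ≃+* 𝓞 K),
  (∀ z : Ei, Algebra.norm ℤ (j z) = nr z) →
  (∀ (n : ℕ) (π : Fin n → Ei) (e : Fin n → ZMod 3), Dt π e →
    ∃ (ω : 𝓞 K) (χ : Fin n → Fin n → ZMod 3) (τ : Fin n → ZMod 3),
      ω ^ 2 + ω + 1 = 0 ∧ IsFact3 ω (j (pD π e)) n (fun i => j (π i)) e χ τ) ∧
  ∀ (ω D : 𝓞 K) (n : ℕ) (π : Fin n → 𝓞 K) (e : Fin n → ZMod 3) (χ : Fin n → Fin n → ZMod 3)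
    (τ : Fin n → ZMod 3), ω ^ 2 + ω + 1 = 0 → IsFact3 ω D n π e χ τ →
    Dt (fun i => j.symm (π i)) e ∧ pD (fun i => j.symm (π i)) e = j.symm D ∧
      (Ker3 (fun i => j.symm (π i)) e ↔ Lap3 e χ τ)

end Pool.Agent.E8helper20.CTK3
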