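import Pool.Agent.E8helper20.CTK3.StmD
import Pool.Agent.E8helper20.CTK3.StmA
import Pool.Agent.R419.CE.Pd
import Pool.Agent.R419.KF.NS

/-!
# Project CTK3: the data of a pair, and the class

Adapted from the files `R419/KF/NS.lean`, `R419/KF/Crit.lean` of helper419.
-/

set_option autoImplicit false

open scoped Classical

namespace Pool.Agent.E8helper20.CTK3

open Finset NumberField
open Pool.Agent.Y692.QS (Ei nr)
open Pool.Agent.Y715.T.Rec (cs)
open Pool.Agent.Y715.T.RecG (Pq)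
open Pool.Agent.Y715.T.Gi (CF)
open Pool.Agent.Y699.E
open Pool.Agent.Y703.CT (Dt pD)
open Pool.Agent.R419.KF (wt wt_ne)
open Pool.Agent.E8helper20.CT3 (Ker3 KerV3)

/-! ### The data of a pair -/

theorem data3 {M S : Finset Ei} (hS : ∀ q ∈ S, Pq q) (hM : M ⊆ S) (hne' : S.Nonempty) :
    ∃ (n : ℕ) (π : Fin (n + 1) → Ei) (e : Fin (n + 1) → ZMod 3), Dt π e ∧ el3 M S = pD π e ∧
      (Gd3 M S ↔ Ker3 π e) := by
  have hne : S.card ≠ 0 := (card_pos.2 hne').ne'
  obtain ⟨n, hn⟩ := Nat.exists_eq_succ_of_ne_zero hne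
  set eq : S ≃ Fin (n + 1) := S.equivFinOfCardEq hn with heq
  set π : Fin (n + 1) → Ei := fun i => (eq.symm i : Ei) with hπ
  have hmem : ∀ i, π i ∈ S := fun i => (eq.symm i).2
  have hinj : Function.Injective π := fun a b hab => eq.symm.injective (Subtype.ext hab)
  have himg : Finset.univ.image π = S := by
    ext q
    rw [mem_image]
    constructor
    · rintro ⟨i, -, rfl⟩
      exact hmem i
    · intro hq
      refine ⟨eq ⟨q, hq⟩, mem_univ _, ?_⟩
      simp [hπ]
  have hsum : ∀ (f : Ei → ZMod 3), ∑ q ∈ S, f q = ∑ i, f (π i) := by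
    intro f
    rw [← himg, sum_image fun a _ b _ h => hinj h]
  refine ⟨n, π, fun i => wt M (π i), ⟨fun i => hS _ (hmem i), fun i j hij hd => ?_,
    fun i => wt_ne M _⟩, ?_, ?_⟩
  · exact hij (hinj (eq_of_dvd (hS _ (hmem j)) (hS _ (hmem i)) hd)).symm
  · unfold pD el3
    have h2 : ∏ q ∈ S, q ^ (wt M q).val = ∏ i, π i ^ (wt M (π i)).val := by
      rw [← himg, prod_image fun a _ b _ h => hinj h]
    rw [← h2]
    have h4 : ∏ q ∈ M, q = ∏ q ∈ S, if q ∈ M then q else 1 := by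
      rw [prod_ite_mem, inter_eq_right.2 hM]
    rw [h4, ← prod_mul_distrib]
    refine prod_congr rfl fun q _ => ?_
    unfold wt
    split_ifs with hq
    · have : (2 : ZMod 3).val = 2 := by decide
      rw [this, pow_two]
    · have : (1 : ZMod 3).val = 1 := by decide
      rw [this, pow_one, mul_one]
  · unfold Gd3 Sol3 Ker3 KerV3
    constructor
    · intro hg v hv i
      have h2 := hg (fun q => if hq : q ∈ S then v (eq ⟨q, hq⟩) else 0) (fun q hq => ?_)
        (π i) (hmem i)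
      · simpa [hπ] using h2
      · obtain ⟨j, rfl⟩ : ∃ j, π j = q := by
          rw [← himg, mem_image] at hq
          obtain ⟨j, -, hj⟩ := hq
          exact ⟨j, hj⟩
        rw [hsum]
        have h3 := hv j
        simpa [hπ] using h3
    · intro hk v hv q hq
      rw [← himg, mem_image] at hq
      obtain ⟨i, -, rfl⟩ := hq
      refine hk (fun i => v (π i)) (fun j => ?_) i
      have h3 := hv (π j) (hmem j)
      rw [hsum] at h3
      exact h3

/-! ### The class -/

/-- cube-free, `1` modulo `3`, not `1` -/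
def ClsK3 {K : Type} [Field K] [NumberField K] (D : 𝓞 K) : Prop :=
  (3 : 𝓞 K) ∣ D - 1 ∧ (∀ x : 𝓞 K, x ^ 3 ∣ D → IsUnit x) ∧ D ≠ 1

variable {K : Type} [Field K] [NumberField K] (j : Ei ≃+* 𝓞 K)

lemma clsK3_iff (D : Ei) : ClsK3 (j D) ↔ ClsC3 D := by
  have e1 : (3 : 𝓞 K) ∣ j D - 1 ↔ (3 : Ei) ∣ D - 1 := by
    have : j D - 1 = j (D - 1) := by rw [map_sub, map_one]
    rw [this, ← map_ofNat j 3, map_dvd_iff j]
  have e2 : j D = 1 ↔ D = 1 := by
    rw [← map_one j, j.injective.eq_iff]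
  unfold ClsK3 ClsC3
  rw [e1, Ne, e2]
  constructor
  · rintro ⟨h1, h2, h3⟩
    refine ⟨h1, ⟨Pool.Agent.Y699.E.prm_ne_zero h1, fun x hx => ?_⟩, h3⟩
    have h := h2 (j x) (by rw [← map_pow]; exact map_dvd j hx)
    exact (MulEquiv.isUnit_map j).1 h
  · rintro ⟨h1, h2, h3⟩
    refine ⟨h1, fun x hx => ?_, h3⟩
    obtain ⟨y, rfl⟩ := j.surjective x
    rw [← map_pow, map_dvd_iff j] at hx
    exact (h2.2 y hx).map j

end Pool.Agent.E8helper20.CTK3
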