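import Pool.Agent.E8helper20.CT3.Val
import Pool.Agent.E8helper20.CTK3.StmA

/-!
# Project CTK3: the valuation of the central value over `K`
-/

set_option autoImplicit false
set_option linter.unusedVariables false

open scoped Classical

namespace Pool.Agent.E8helper20.CTK3

open Pool.Agent.Y692.QS (Ei w nr toC)
open Pool.Agent.Y715.T.Rec (cs)
open Pool.Agent.Y715.T.RecG (Pq)
open Pool.Agent.Y703.CT
open Pool.Agent.Y715.T.Cg (Cg z_pow)
open Pool.Agent.Y715.T.Three (lam lam_ne lam_lt lam_ne' lam_pos sq_three v_nine)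
open Pool.Agent.Y696 (Cur)
open Pool.Agent.E8helper20.CT3 (IsHL3 Ker3 yy)
open Pool.Agent.E8helper20.CT3.Cmb (DD)

/-- the valuation of `|F(1)|²` -/
theorem val_sq3 {J : Type} [Fintype J] [Nonempty J] {π : J → Ei} {e : J → ZMod 3} (hD : Dt π e) :
    ∃ F : ℂ → ℂ, IsHL3 π (fun j => -e j) F ∧
      ∀ (Γ : Type) [LinearOrderedCommGroupWithZero Γ] (v : Valuation ℂ Γ), v 3 < 1 →
        ∀ (L : PeriodPair) (Ω : ℂ), Cur L Ω → ∃ g : Γ, g ≤ 1 ∧ (Ker3 π e → g = 1) ∧
          (¬ Ker3 π e → g < 1) ∧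
          v (F 1 * (starRingEnd ℂ) (F 1) / (Ω * (starRingEnd ℂ) Ω)) ^ 3 * v lam ^ 10 =
            v lam ^ (6 * Fintype.card J) * g ^ 3 := by
  obtain ⟨F, hF, hval⟩ := Pool.Agent.E8helper20.CT3.Va.an_val hD.neg
  have hdk := Pool.Agent.E8helper20.CT3.Va.DD_iff hD
  set d : ZMod 3 := DD (am π (fun j => -e j)) (fun i => yy (π i)) Finset.univ with hd
  refine ⟨F, hF, ?_⟩
  intro Γ _ v hv L Ω hC
  have hv' : (v.comap (starRingEnd ℂ)) 3 < 1 := by
    rw [Valuation.comap_apply, map_ofNat]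
    exact hv
  obtain ⟨s, hs, h1⟩ := hval Γ v hv L Ω hC
  obtain ⟨s', hs', h1'⟩ := hval Γ (v.comap (starRingEnd ℂ)) hv' L Ω hC
  have h2 : (v.comap (starRingEnd ℂ)) lam = v lam := by
    rw [Valuation.comap_apply, conj_lam, v.map_neg]
  rw [h2] at h1'
  have h3 : (v.comap (starRingEnd ℂ)) ((starRingEnd ℂ) (F 1) / Ω) =
      v (F 1 / (starRingEnd ℂ) Ω) := by
    rw [Valuation.comap_apply, map_div₀ (starRingEnd ℂ), Complex.conj_conj]
  rw [h3] at h1'
  refine ⟨v s * (v.comap (starRingEnd ℂ)) s', ?_, fun hk => ?_, fun hk => ?_, ?_⟩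
  · exact mul_le_one' hs.le hs'.le
  · rw [hs.eq_one hv (hdk.2 hk), hs'.eq_one hv' (hdk.2 hk), one_mul]
  · have h0 : d = 0 := by
      by_contra hcon
      exact hk (hdk.1 hcon)
    rw [h0] at hs hs'
    exact mul_lt_one_of_lt_of_le hs.lt_one hs'.le
  · have e : F 1 * (starRingEnd ℂ) (F 1) / (Ω * (starRingEnd ℂ) Ω) =
        ((starRingEnd ℂ) (F 1) / Ω) * (F 1 / (starRingEnd ℂ) Ω) := by
      rw [div_mul_div_comm]
      ring
    have e10 : v lam ^ 10 = v lam ^ 5 * v lam ^ 5 := by rw [← pow_add]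
    have e6 : v lam ^ (6 * Fintype.card J) =
        v lam ^ (3 * Fintype.card J) * v lam ^ (3 * Fintype.card J) := by
      rw [← pow_add]
      congr 1
      ring
    rw [e, map_mul, mul_pow, mul_pow, e10, e6, mul_mul_mul_comm, h1, h1', mul_mul_mul_comm]

end Pool.Agent.E8helper20.CTK3
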